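import Pool.Agent.Helper6.FR.P14

/-! P15: the Frobenius relation for the row `(1, ξ, …, ξ^n)`. -/

open Polynomial

namespace Pool.Agent.Helper6.FR

open Pool.Agent.Helper20.FR

universe u

lemma natDegree_Sy_le {k : Type u} [Field k] (n : ℕ) (a b c d : k[X]) (l : ℕ) (hl : l < n + 1) :
    ((C a * X + C b : k[X][X]) ^ l * (C c * X + C d) ^ (n - l)).natDegree < n + 1 := by
  have h1 : (C a * X + C b : k[X][X]).natDegree ≤ 1 := natDegree_linear_le
  have h2 : (C c * X + C d : k[X][X]).natDegree ≤ 1 := natDegree_linear_le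
  have h4 := natDegree_mul_le (p := (C a * X + C b : k[X][X]) ^ l)
    (q := (C c * X + C d) ^ (n - l))
  have h5 := natDegree_pow_le (p := (C a * X + C b : k[X][X])) (n := l)
  have h6 := natDegree_pow_le (p := (C c * X + C d : k[X][X])) (n := n - l)
  have h7 : l * (C a * X + C b : k[X][X]).natDegree ≤ l * 1 := Nat.mul_le_mul_left _ h1
  have h8 : (n - l) * (C c * X + C d : k[X][X]).natDegree ≤ (n - l) * 1 :=
    Nat.mul_le_mul_left _ h2
  omega

/-- evaluating a column of `Sy` -/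
lemma sum_Sy {k : Type u} [Field k] (n : ℕ) (a b c d : k[X]) (η : LaurentSeries k)
    (l : Fin (n + 1)) :
    ∑ i : Fin (n + 1), iot (Sy n a b c d i l) * η ^ (i : ℕ) =
      (iot a * η + iot b) ^ (l : ℕ) * (iot c * η + iot d) ^ (n - (l : ℕ)) := by
  have h := eval₂_eq_sum_range' (p := (C a * X + C b : k[X][X]) ^ (l : ℕ) *
    (C c * X + C d) ^ (n - (l : ℕ))) (iot : k[X] →+* LaurentSeries k)
    (natDegree_Sy_le n a b c d l l.2) η
  rw [Finset.sum_range] at h
  simp only [Sy, Matrix.of_apply]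
  rw [← h]
  simp [eval₂_mul, eval₂_pow, eval₂_add, eval₂_C, eval₂_X]

lemma HQ_ne {k : Type u} [Field k] {r : ℕ} {ξ : LaurentSeries k} {A B C D : k[X]}
    (h : A * D - B * C ≠ 0) (hr : ξ * (iot C * ξ ^ r + iot D) = iot A * ξ ^ r + iot B) :
    iot A - iot C * ξ ≠ 0 := by
  intro h0
  apply h
  rw [← iot_eq_zero, map_sub, map_mul, map_mul]
  have h1 : iot A = iot C * ξ := sub_eq_zero.1 h0
  have h2 : iot B = iot D * ξ := by
    have : iot B - iot D * ξ = -ξ ^ r * (iot A - iot C * ξ) := by linear_combination -hr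
    rw [h0, mul_zero] at this
    exact sub_eq_zero.1 this
  rw [h1, h2]; ring

theorem r1 : S_R1.{u} := by
  intro k _ r ξ hξ n
  obtain ⟨A, B, C, D, h, hr⟩ := hξ
  have hne := HQ_ne h hr
  refine ⟨Sy n D (-B) (-C) A, Matrix.of fun _ _ => (iot A - iot C * ξ) ^ n, ?_, ?_, ?_⟩
  · apply sy
    intro h1; apply h; rw [← h1]; ring
  · simp only [Matrix.det_unique, Matrix.of_apply]
    exact pow_ne_zero _ hne
  · refine Matrix.ext fun i l => ?_
    have h1 := sum_Sy n D (-B) (-C) A ξ l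
    simp only [Matrix.mul_apply, rowU, Matrix.of_apply, Matrix.map_apply, Finset.univ_unique,
      Finset.sum_singleton]
    rw [show (∑ x : Fin (n + 1), ξ ^ (x : ℕ) * iot (Sy n D (-B) (-C) A x l)) =
      ∑ i : Fin (n + 1), iot (Sy n D (-B) (-C) A i l) * ξ ^ (i : ℕ) from
      Finset.sum_congr rfl fun _ _ => mul_comm _ _, h1]
    have h2 : iot D * ξ + iot (-B) = ξ ^ r * (iot A - iot C * ξ) := by
      rw [map_neg]; linear_combination hr
    have h3 : iot (-C) * ξ + iot A = iot A - iot C * ξ := by rw [map_neg]; ring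
    have h4 : (iot A - iot C * ξ) ^ n = (iot A - iot C * ξ) ^ (l : ℕ) *
        (iot A - iot C * ξ) ^ (n - (l : ℕ)) := by
      rw [← pow_add]; congr 1; have := l.2; omega
    rw [h2, h3, h4, mul_pow, ← pow_mul, ← pow_mul, mul_comm r]
    ring

end Pool.Agent.Helper6.FR
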