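import Pool.Agent.Helper6.FR.P15

/-! P16: the Frobenius relation for simultaneous approximation. -/

open Polynomial

namespace Pool.Agent.Helper6.FR

open Pool.Agent.Helper20.FR

universe u

lemma HQ_ne' {k : Type u} [Field k] {r : ℕ} {ξ : LaurentSeries k} {A B C D : k[X]}
    (h : A * D - B * C ≠ 0) (hr : ξ * (iot C * ξ ^ r + iot D) = iot A * ξ ^ r + iot B) :
    iot C * ξ ^ r + iot D ≠ 0 := by
  intro h0
  apply h
  rw [← iot_eq_zero, map_sub, map_mul, map_mul]
  rw [h0, mul_zero] at hr
  have h1 : iot D = -(iot C * ξ ^ r) := by linear_combination h0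
  have h2 : iot B = -(iot A * ξ ^ r) := by linear_combination -hr
  rw [h1, h2]; ring

/-- the kernel of `simU` -/
lemma simU_mulVec {k : Type u} [Field k] (n : ℕ) (ξ : LaurentSeries k)
    (x : Fin (n + 1) → LaurentSeries k) (i : Fin n) :
    (simU n ξ).mulVec x i = ξ ^ ((i : ℕ) + 1) * x 0 - x i.succ := by
  simp only [Matrix.mulVec, dotProduct]
  rw [Fin.sum_univ_succ, Finset.sum_eq_single i]
  · simp [simU]; ring
  · intro j _ hj
    have : ¬ ((j : ℕ) = i) := fun h => hj (Fin.ext h)
    simp [simU, this]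
  · intro h; exact absurd (Finset.mem_univ i) h

theorem r2 : S_R2.{u} := by
  intro k _ p _ _ s ξ hξ n
  obtain ⟨A, B, C, D, h, hr⟩ := hξ
  set r := p ^ s with hrdef
  have hne := HQ_ne' h hr
  have hr0 : r ≠ 0 := pow_ne_zero _ (Fact.out : p.Prime).ne_zero
  set A' : Matrix (Fin (n + 1)) (Fin (n + 1)) k[X] := (Sy n A B C D).transpose with hA'
  have hdet : A'.det ≠ 0 := by
    rw [hA', Matrix.det_transpose]; exact sy k n A B C D h
  set M : Matrix (Fin n) (Fin (n + 1)) (LaurentSeries k) := simU n ξ * A'.map iot with hM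
  -- `A' Ξ^(r) = (C ξ^r + D)^n Ξ`
  have hX : ∀ i : Fin (n + 1), (A'.map iot).mulVec (fun l : Fin (n + 1) => (ξ ^ r) ^ (l : ℕ)) i =
      (iot C * ξ ^ r + iot D) ^ n * ξ ^ (i : ℕ) := by
    intro i
    have h1 := sum_Sy n A B C D (ξ ^ r) i
    simp only [Matrix.mulVec, dotProduct, Matrix.map_apply, hA', Matrix.transpose_apply]
    rw [h1, ← hr]
    have h4 : (iot C * ξ ^ r + iot D) ^ n = (iot C * ξ ^ r + iot D) ^ (i : ℕ) *
        (iot C * ξ ^ r + iot D) ^ (n - (i : ℕ)) := by
      rw [← pow_add]; congr 1; have := i.2; omega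
    rw [h4, mul_pow]
    ring
  have hX0 : M.mulVec (fun l : Fin (n + 1) => (ξ ^ r) ^ (l : ℕ)) = 0 := by
    rw [hM, ← Matrix.mulVec_mulVec]
    have : (A'.map iot).mulVec (fun l : Fin (n + 1) => (ξ ^ r) ^ (l : ℕ)) =
        fun i : Fin (n + 1) => (iot C * ξ ^ r + iot D) ^ n * ξ ^ (i : ℕ) := funext hX
    rw [this]
    ext1 i
    rw [simU_mulVec]
    simp
    ring
  refine ⟨A', Matrix.of fun i m => - M i m.succ, hdet, ?_, ?_⟩
  · intro h0
    obtain ⟨y, hy, hy0⟩ := Matrix.exists_mulVec_eq_zero_iff.2 h0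
    set x : Fin (n + 1) → LaurentSeries k := Fin.cons 0 y with hx
    have h1 : M.mulVec x = 0 := by
      ext1 i
      have h2 := congrFun hy0 i
      simp only [Matrix.mulVec, dotProduct, Matrix.of_apply, Pi.zero_apply] at h2 ⊢
      rw [Fin.sum_univ_succ]
      simp only [hx, Fin.cons_zero, mul_zero, Fin.cons_succ, zero_add]
      rw [← neg_eq_zero, ← h2, ← Finset.sum_neg_distrib]
      exact Finset.sum_congr rfl fun _ _ => by ring
    rw [hM, ← Matrix.mulVec_mulVec] at h1
    set z := (A'.map iot).mulVec x with hz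
    -- `z = z₀ Ξ`
    have h2 : ∀ i : Fin (n + 1), z i = z 0 * ξ ^ (i : ℕ) := by
      intro i
      refine Fin.cases ?_ (fun i => ?_) i
      · simp
      · have h3 := congrFun h1 i
        rw [simU_mulVec, Pi.zero_apply, sub_eq_zero] at h3
        rw [← h3, Fin.val_succ]; ring
    set e := z 0 / (iot C * ξ ^ r + iot D) ^ n with he
    have h3 : (A'.map iot).mulVec (x - e • fun l : Fin (n + 1) => (ξ ^ r) ^ (l : ℕ)) = 0 := by
      rw [Matrix.mulVec_sub, Matrix.mulVec_smul]
      ext1 i
      rw [Pi.sub_apply, Pi.smul_apply, hX i, ← hz, h2 i, Pi.zero_apply, he, smul_eq_mul]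
      have := pow_ne_zero n hne
      field_simp
      ring
    have hdet' : (A'.map iot : Matrix _ _ (LaurentSeries k)).det ≠ 0 := by
      have : (A'.map iot : Matrix _ _ (LaurentSeries k)).det = iot A'.det := by
        rw [RingHom.map_det]; rfl
      rw [this, Ne, iot_eq_zero]; exact hdet
    have h4 := Matrix.eq_zero_of_mulVec_eq_zero hdet' h3
    have h5 := congrFun h4 0
    simp only [hx, Pi.sub_apply, Fin.cons_zero, Pi.smul_apply, smul_eq_mul, Fin.val_zero,
      pow_zero, mul_one, Pi.zero_apply, zero_sub, neg_eq_zero] at h5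
    apply hy
    ext1 m
    have h6 := congrFun h4 m.succ
    rw [h5, zero_smul, sub_zero, hx] at h6
    simpa using h6
  · have hneg : (-1 : LaurentSeries k) ^ r = -1 := by
      have := sub_pow_r s (0 : LaurentSeries k) 1
      rw [← hrdef, one_pow, zero_pow hr0] at this
      simpa using this
    rw [← hM]
    refine Matrix.ext fun i l => ?_
    rw [Matrix.mul_apply]
    refine Fin.cases ?_ (fun l => ?_) l
    · have h1 := congrFun hX0 i
      simp only [Matrix.mulVec, dotProduct, Pi.zero_apply] at h1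
      rw [Fin.sum_univ_succ] at h1
      simp only [Fin.val_zero, pow_zero, mul_one, Fin.val_succ] at h1
      rw [eq_neg_of_add_eq_zero_left h1, ← Finset.sum_neg_distrib]
      refine Finset.sum_congr rfl fun m _ => ?_
      simp only [Matrix.of_apply, Matrix.map_apply, simU, Fin.val_zero, if_true]
      rw [← pow_mul, ← pow_mul, mul_comm r]
      ring
    · rw [Finset.sum_eq_single l]
      · simp only [Matrix.of_apply, Matrix.map_apply, simU, Fin.val_succ]
        rw [if_neg (by omega), if_pos trivial, hneg]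
        ring
      · intro m _ hm
        have h1 : ¬ ((l : ℕ) = m) := fun h => hm (Fin.ext h.symm)
        simp only [Matrix.of_apply, Matrix.map_apply, simU, Fin.val_succ]
        rw [if_neg (by omega), if_neg (by omega), zero_pow hr0, mul_zero]
      · intro h; exact absurd (Finset.mem_univ l) h

end Pool.Agent.Helper6.FR
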