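import Pool.Agent.Helper20.FR.Spec

/-! P4d: linear independence over `k[T]` and minors. -/

open Polynomial Module

namespace Pool.Agent.Helper6.FR

open Pool.Agent.Helper20.FR

universe u

theorem mn : S_MN.{u} := by
  intro k _ N _ _ κ Y
  constructor
  · intro hLI
    set φ := algebraMap k[X] (FractionRing k[X]) with hφ
    have hinj : Function.Injective φ := IsFractionRing.injective _ _
    set YK : Matrix N (Fin κ) (FractionRing k[X]) := Y.map φ with hYK
    have h1 : LinearIndependent k[X] (fun b => (fun i => φ (Y i b) : N → FractionRing k[X])) := by
      have h := LinearIndependent.map' hLI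
        (LinearMap.compLeft (Algebra.linearMap k[X] (FractionRing k[X])) N) (by
          rw [LinearMap.ker_eq_bot]
          intro x y hxy
          ext1 i
          exact hinj (congrFun hxy i))
      exact h
    have h2 : LinearIndependent (FractionRing k[X])
        (fun b => (fun i => φ (Y i b) : N → FractionRing k[X])) :=
      (LinearIndependent.iff_fractionRing k[X] (FractionRing k[X])).1 h1
    have h3 : YK.transpose.rank = κ := by
      have h : LinearIndependent (FractionRing k[X]) YK.transpose.row := h2
      rw [h.rank_matrix, Fintype.card_fin]
    have h4 : YK.rank = κ := by rw [← Matrix.rank_transpose]; exact h3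
    have h5 : finrank (FractionRing k[X]) (Submodule.span (FractionRing k[X])
        (Set.range YK.row)) = κ := by
      rw [← Matrix.rank_eq_finrank_span_row]; exact h4
    obtain ⟨g, hg, -, hgli⟩ := Submodule.exists_fun_fin_finrank_span_eq (FractionRing k[X])
      (Set.range YK.row)
    choose f hf using hg
    set e : Fin κ ≃ Fin (finrank (FractionRing k[X]) (Submodule.span (FractionRing k[X])
        (Set.range YK.row))) := finCongr h5.symm with he
    refine ⟨fun a => f (e a), ?_⟩
    have h6 : LinearIndependent (FractionRing k[X])
        (Matrix.of fun (a b : Fin κ) => YK (f (e a)) b).row := by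
      have h := hgli.comp e e.injective
      have h' : (Matrix.of fun (a b : Fin κ) => YK (f (e a)) b).row = g ∘ e := by
        ext1 a
        rw [Function.comp_apply, ← hf (e a)]
        rfl
      rw [h']; exact h
    have h7 := Matrix.linearIndependent_rows_iff_isUnit.1 h6
    have h8 := ((Matrix.isUnit_iff_isUnit_det _).1 h7).ne_zero
    intro h0
    apply h8
    have h9 : (Matrix.of fun (a b : Fin κ) => YK (f (e a)) b) =
        (Matrix.of fun (a b : Fin κ) => Y (f (e a)) b).map φ := rfl
    rw [h9]
    have h10 := RingHom.map_det φ (Matrix.of fun (a b : Fin κ) => Y (f (e a)) b)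
    rw [mnr] at h0
    rw [h0, map_zero] at h10
    exact h10.symm
  · rintro ⟨f, hf⟩
    rw [LI, Fintype.linearIndependent_iff]
    intro c hc
    have h : (Matrix.of fun a b => Y (f a) b).mulVec c = 0 := by
      ext1 a
      have := congrFun hc (f a)
      simp only [Finset.sum_apply, Pi.smul_apply, smul_eq_mul, Pi.zero_apply] at this
      simp only [Matrix.mulVec, dotProduct, Matrix.of_apply, Pi.zero_apply]
      rw [← this]
      exact Finset.sum_congr rfl fun _ _ => mul_comm _ _
    exact congrFun (Matrix.eq_zero_of_mulVec_eq_zero hf h)

end Pool.Agent.Helper6.FR
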