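import Pool.Agent.Helper20.FR.Spec

/-! P14: the symmetric power of an invertible matrix is invertible. -/

open Polynomial

namespace Pool.Agent.Helper6.FR

open Pool.Agent.Helper20.FR

universe u

theorem sy : S_SY.{u} := by
  intro k _ n a b c d h hdet
  obtain ⟨v, hv, hv0⟩ := Matrix.exists_mulVec_eq_zero_iff.2 hdet
  -- the polynomial vanishes
  have hP : (∑ l : Fin (n + 1), (C (v l) * ((C a * X + C b) ^ (l : ℕ) *
      (C c * X + C d) ^ (n - (l : ℕ))) : k[X][X])) = 0 := by
    ext1 i
    rw [finsetSum_coeff, coeff_zero]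
    by_cases hi : i < n + 1
    · have := congrFun hv0 ⟨i, hi⟩
      simp only [Matrix.mulVec, dotProduct, Sy, Matrix.of_apply, Pi.zero_apply] at this
      rw [← this]
      refine Finset.sum_congr rfl fun l _ => ?_
      rw [coeff_C_mul, mul_comm]
    · refine Finset.sum_eq_zero fun l _ => ?_
      apply coeff_eq_zero_of_natDegree_lt
      have h1 : (C a * X + C b : k[X][X]).natDegree ≤ 1 := natDegree_linear_le
      have h2 : (C c * X + C d : k[X][X]).natDegree ≤ 1 := natDegree_linear_le
      have h3 := natDegree_C_mul_le (v l) ((C a * X + C b : k[X][X]) ^ (l : ℕ) *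
        (C c * X + C d) ^ (n - (l : ℕ)))
      have h4 := natDegree_mul_le (p := (C a * X + C b : k[X][X]) ^ (l : ℕ))
        (q := (C c * X + C d) ^ (n - (l : ℕ)))
      have h5 := natDegree_pow_le (p := (C a * X + C b : k[X][X])) (n := (l : ℕ))
      have h6 := natDegree_pow_le (p := (C c * X + C d : k[X][X])) (n := n - (l : ℕ))
      have h7 : (l : ℕ) * (C a * X + C b : k[X][X]).natDegree ≤ (l : ℕ) * 1 :=
        Nat.mul_le_mul_left _ h1
      have h8 : (n - (l : ℕ)) * (C c * X + C d : k[X][X]).natDegree ≤ (n - (l : ℕ)) * 1 :=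
        Nat.mul_le_mul_left _ h2
      have h9 := l.2
      omega
  set V : k[X][X] := ∑ l : Fin (n + 1), C (v l) * X ^ (l : ℕ) with hV
  set δ := a * d - b * c with hδ
  have key : ∀ η : k[X], a - c * η ≠ 0 → V.eval η = 0 := by
    intro η hη
    set φ := algebraMap k[X] (FractionRing k[X]) with hφ
    have hinj : Function.Injective φ := IsFractionRing.injective _ _
    have hy : φ (a - c * η) ≠ 0 := by
      rw [Ne, map_eq_zero_iff _ hinj]; exact hη
    have hδ' : φ δ ≠ 0 := by
      rw [Ne, map_eq_zero_iff _ hinj]; exact h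
    have h1 := congrArg (fun P : k[X][X] => P.eval₂ φ (φ (d * η - b) / φ (a - c * η))) hP
    simp only [eval₂_finsetSum, eval₂_mul, eval₂_C, eval₂_pow, eval₂_add, eval₂_X,
      eval₂_zero] at h1
    have e1 : φ a * (φ (d * η - b) / φ (a - c * η)) + φ b = φ δ * φ η / φ (a - c * η) := by
      field_simp
      rw [← map_mul, ← map_mul, ← map_add, ← map_mul]
      congr 1
      rw [hδ]; ring
    have e2 : φ c * (φ (d * η - b) / φ (a - c * η)) + φ d = φ δ / φ (a - c * η) := by
      field_simp
      rw [← map_mul, ← map_mul, ← map_add]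
      congr 1
      rw [hδ]; ring
    rw [e1, e2] at h1
    have h2 : ∀ l : Fin (n + 1), φ (v l) * ((φ δ * φ η / φ (a - c * η)) ^ (l : ℕ) *
        (φ δ / φ (a - c * η)) ^ (n - (l : ℕ))) =
        (φ δ / φ (a - c * η)) ^ n * (φ (v l * η ^ (l : ℕ))) := by
      intro l
      have h3 : (φ δ / φ (a - c * η)) ^ n = (φ δ / φ (a - c * η)) ^ (l : ℕ) *
          (φ δ / φ (a - c * η)) ^ (n - (l : ℕ)) := by
        rw [← pow_add]; congr 1; have := l.2; omega
      have h4 : φ δ * φ η / φ (a - c * η) = φ η * (φ δ / φ (a - c * η)) := by ring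
      rw [h3, h4, mul_pow, map_mul, map_pow]
      ring
    rw [Finset.sum_congr rfl fun l _ => h2 l, ← Finset.mul_sum, ← map_sum] at h1
    rcases mul_eq_zero.1 h1 with h5 | h5
    · exact absurd h5 (pow_ne_zero _ (div_ne_zero hδ' hy))
    · rw [map_eq_zero_iff _ hinj] at h5
      rw [hV, eval_finsetSum]
      simpa [eval_mul, eval_C, eval_pow, eval_X] using h5
  have hW : V * (C a - C c * X) = 0 := by
    apply Polynomial.funext
    intro η
    rw [eval_mul, eval_zero]
    by_cases hη : a - c * η = 0
    · simp [hη]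
    · rw [key η hη, zero_mul]
  rcases mul_eq_zero.1 hW with h1 | h1
  · apply hv
    ext1 l
    have h2 := congrArg (fun P : k[X][X] => P.coeff (l : ℕ)) h1
    simp only [hV, finsetSum_coeff, coeff_C_mul, coeff_X_pow, coeff_zero] at h2
    rw [Finset.sum_eq_single l] at h2
    · simpa using h2
    · intro m _ hm
      rw [if_neg, mul_zero]
      intro h3
      exact hm (Fin.ext h3.symm)
    · intro h3; exact absurd (Finset.mem_univ l) h3
  · have h2 := congrArg (fun P : k[X][X] => P.coeff 0) h1
    have h3 := congrArg (fun P : k[X][X] => P.coeff 1) h1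
    simp at h2 h3
    apply h
    rw [hδ, h2, h3]; ring

end Pool.Agent.Helper6.FR
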